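import Pool.Agent.Helper84.FP.Goals

/-!
Project FQ (MP_43a2f8_nt), packet BBB (helper79): the fixed points up to `x` are few.
-/

set_option autoImplicit false

namespace Pool.Agent.Helper79.FQ.BBB

open Finset Pool.Agent.Helper91.FP Pool.Agent.Helper84.FP

theorem T_lt (hS : S_SIZ) {n x : ℕ} (h1 : 1 ≤ n) (hx : n ≤ x) (ha : a n = n) :
    (n.divisors.card : ℝ) < 2 * 2 ^ √(Real.logb 2 x) := by
  obtain ⟨hR, -, hT, hTO, hlt⟩ := hS n h1 ha
  set T := n.divisors.card with hTdef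
  have hT4 : 4 ≤ T := le_trans (by
    calc 4 = 2 ^ 2 := by norm_num
      _ ≤ 2 ^ n.primeFactors.card := Nat.pow_le_pow_right (by norm_num) hR) hT
  have hTpos : (0 : ℝ) < T := by exact_mod_cast (by omega : 0 < T)
  have hxpos : (0 : ℝ) < x := by exact_mod_cast (by omega : 0 < x)
  set y := Real.logb 2 T with hy
  set L := Real.logb 2 x with hL
  have hTy : (2 : ℝ) ^ y = T := Real.rpow_logb (by norm_num) (by norm_num) hTpos
  have hy2 : 2 ≤ y := by
    rw [hy, Real.le_logb_iff_rpow_le (by norm_num) hTpos]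
    have : (4 : ℝ) ≤ T := by exact_mod_cast hT4
    calc (2 : ℝ) ^ (2 : ℝ) = 4 := by norm_num
      _ ≤ T := this
  have hyO : y ≤ Om n := by
    rw [hy, Real.logb_le_iff_le_rpow (by norm_num) hTpos, Real.rpow_natCast]
    exact_mod_cast hTO
  have hlt' : (T : ℝ) ^ (Om n) < 2 ^ (Om n) * x := by
    have h : (T : ℝ) ^ (Om n) < 2 ^ (Om n) * n := by exact_mod_cast hlt
    have h' : (n : ℝ) ≤ x := by exact_mod_cast hx
    exact h.trans_le (by gcongr)
  have h3 : y * Om n < Om n + L := by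
    have e1 : Real.logb 2 ((T : ℝ) ^ (Om n)) < Real.logb 2 (2 ^ (Om n) * x) :=
      Real.logb_lt_logb (by norm_num) (by positivity) hlt'
    rw [Real.logb_pow, Real.logb_mul (by positivity) hxpos.ne', Real.logb_pow,
      Real.logb_self_eq_one (by norm_num)] at e1
    linarith
  have h4 : (y - 1) ^ 2 < L := by
    have : (y - 1) * y ≤ (y - 1) * Om n := mul_le_mul_of_nonneg_left hyO (by linarith)
    nlinarith
  have h5 : y - 1 < √L := Real.lt_sqrt_of_sq_lt h4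
  calc (T : ℝ) = 2 ^ y := hTy.symm
    _ < 2 ^ (1 + √L) := Real.rpow_lt_rpow_of_exponent_lt (by norm_num) (by linarith)
    _ = 2 * 2 ^ √L := by rw [Real.rpow_add (by norm_num), Real.rpow_one]

theorem t : S_SIZ → S_PTC → S_BBB := by
  intro hS hP x
  set Z : ℝ := 2 * 2 ^ √(Real.logb 2 x) with hZ
  have hZ0 : 0 ≤ Z := by positivity
  have hsub : ((Icc 1 x).filter fun n => a n = n) ⊆
      (Icc 1 ⌊Z⌋₊).biUnion fun t => (hP t).1.toFinset := by
    intro n hn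
    rw [mem_filter, mem_Icc] at hn
    obtain ⟨⟨h1, h2⟩, h3⟩ := hn
    rw [mem_biUnion]
    refine ⟨n.divisors.card, ?_, ?_⟩
    · rw [mem_Icc]
      refine ⟨Finset.card_pos.2 ⟨1, Nat.one_mem_divisors.2 (by omega)⟩, ?_⟩
      exact Nat.le_floor (T_lt hS h1 h2 h3).le
    · rw [Set.Finite.mem_toFinset]
      exact ⟨h1, h3, rfl⟩
  have h1 : (((Icc 1 x).filter fun n => a n = n).card : ℝ)
      ≤ ∑ t ∈ Icc 1 ⌊Z⌋₊, (4 * Z ^ 4) := by
    have hc := (card_le_card hsub).trans card_biUnion_le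
    calc (((Icc 1 x).filter fun n => a n = n).card : ℝ)
        ≤ ((∑ t ∈ Icc 1 ⌊Z⌋₊, ((hP t).1.toFinset).card : ℕ) : ℝ) := by exact_mod_cast hc
      _ = ∑ t ∈ Icc 1 ⌊Z⌋₊, (((hP t).1.toFinset).card : ℝ) := by push_cast; rfl
      _ ≤ ∑ t ∈ Icc 1 ⌊Z⌋₊, (4 * Z ^ 4) := by
          refine sum_le_sum fun t ht => ?_
          rw [← Set.ncard_eq_toFinset_card _ (hP t).1]
          have h2 : (({n : ℕ | 0 < n ∧ a n = n ∧ n.divisors.card = t}.ncard : ℕ) : ℝ)
              ≤ 4 * (t : ℝ) ^ 4 := by exact_mod_cast (hP t).2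
          have h3 : (t : ℝ) ≤ Z := (Nat.cast_le.2 (mem_Icc.1 ht).2).trans (Nat.floor_le hZ0)
          refine h2.trans ?_
          gcongr
  refine h1.trans ?_
  rw [sum_const, Nat.card_Icc, Nat.add_sub_cancel, nsmul_eq_mul]
  have h4 : ((⌊Z⌋₊ : ℕ) : ℝ) ≤ Z := Nat.floor_le hZ0
  calc ((⌊Z⌋₊ : ℕ) : ℝ) * (4 * Z ^ 4) ≤ Z * (4 * Z ^ 4) := by gcongr
    _ = 128 * ((2 : ℝ) ^ √(Real.logb 2 x)) ^ 5 := by rw [hZ]; ring
    _ = 128 * 2 ^ (5 * √(Real.logb 2 x)) := by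
        rw [← Real.rpow_natCast ((2 : ℝ) ^ √(Real.logb 2 x)) 5, ← Real.rpow_mul (by norm_num)]
        congr 2
        push_cast
        ring

end Pool.Agent.Helper79.FQ.BBB
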